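import Mathlib

/-!
MP_b00f03_nt: rootless trees in forests of left-right pairs.

For every subfield K of the complex numbers and every left-right pair (L,R) in SL_2(N_0), the
forest F(L,R) has no rootless component: the list of pairs asked for is empty.
-/

namespace Pool.Agent.Results.MP_b00f03_nt.NoRootlessComponent

/-- The matrices with nonnegative integer entries `a, b, c, d` (first row `a b`, second row
`c d`) and determinant `1`. -/
structure SLN where
  a : ℕ
  b : ℕ
  c : ℕ
  d : ℕ
  det_eq : a * d = b * c + 1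

/-- The identity matrix. -/
def SLN.one : SLN := ⟨1, 0, 0, 1, rfl⟩

/-- The action `T(z) = (az+b)/(cz+d)`. -/
noncomputable def act (T : SLN) (z : ℂ) : ℂ := (T.a * z + T.b) / (T.c * z + T.d)

/-- The open first quadrant of the subfield `K`. -/
def D0 (K : Subfield ℂ) : Set ℂ := {z | z ∈ K ∧ 0 < z.re ∧ 0 < z.im}

/-- `(L,R)` is a left-right pair: both are not the identity, and `L(D_0)`, `R(D_0)` are
disjoint. -/
def IsLeftRightPair (K : Subfield ℂ) (L R : SLN) : Prop :=
  L ≠ SLN.one ∧ R ≠ SLN.one ∧ act L '' D0 K ∩ act R '' D0 K = ∅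

/-- The edges of the directed graph `F(L,R)` on `D_0`: `z → L(z)` and `z → R(z)`. -/
def Edge (K : Subfield ℂ) (L R : SLN) (z w : D0 K) : Prop :=
  (w : ℂ) = act L z ∨ (w : ℂ) = act R z

/-- An orphan: a vertex without parent. -/
def IsOrphan (K : Subfield ℂ) (L R : SLN) (w : D0 K) : Prop := ∀ z : D0 K, ¬ Edge K L R z w

/-- Two vertices lie in one connected component of `F(L,R)` (equivalence relation generated by
the edges). -/
def SameComponent (K : Subfield ℂ) (L R : SLN) (z w : D0 K) : Prop :=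
  Relation.EqvGen (Edge K L R) z w

/-- Some connected component of `F(L,R)` is rootless: it contains no orphan. -/
def HasRootlessComponent (K : Subfield ℂ) (L R : SLN) : Prop :=
  ∃ z : D0 K, ∀ w : D0 K, SameComponent K L R z w → ¬ IsOrphan K L R w

/-- There is a path of `n` edges from `w` to `z`, so that `w` is the `n`-th ancestor of `z`. -/
inductive Ancestor (K : Subfield ℂ) (L R : SLN) : ℕ → D0 K → D0 K → Prop
  | refl (z : D0 K) : Ancestor K L R 0 z z
  | step {n : ℕ} {z w v : D0 K} : Ancestor K L R n w z → Edge K L R v w →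
      Ancestor K L R (n + 1) v z

/-! ### Products and sizes of matrices -/

/-- The product of two matrices. -/
def mul (P M : SLN) : SLN where
  a := P.a * M.a + P.b * M.c
  b := P.a * M.b + P.b * M.d
  c := P.c * M.a + P.d * M.c
  d := P.c * M.b + P.d * M.d
  det_eq := by
    have h1 := P.det_eq
    have h2 := M.det_eq
    zify at h1 h2 ⊢
    linear_combination (M.a * M.d - M.b * M.c : ℤ) * h1 + h2

/-- The sum of the entries. -/
def size (P : SLN) : ℕ := P.a + P.b + P.c + P.d

lemma SLN.a_pos (P : SLN) : 1 ≤ P.a := by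
  rcases Nat.eq_zero_or_pos P.a with h | h
  · have := P.det_eq
    rw [h] at this
    omega
  · exact h

lemma SLN.d_pos (P : SLN) : 1 ≤ P.d := by
  rcases Nat.eq_zero_or_pos P.d with h | h
  · have := P.det_eq
    rw [h] at this
    omega
  · exact h

lemma ne_one_iff (M : SLN) (h : M ≠ SLN.one) : 1 ≤ M.b ∨ 1 ≤ M.c := by
  by_contra hc
  push Not at hc
  have hb : M.b = 0 := by omega
  have hc' : M.c = 0 := by omega
  apply h
  have hd := M.det_eq
  rw [hb, hc'] at hd
  have ha1 : M.a = 1 := Nat.eq_one_of_mul_eq_one_right (by simpa using hd)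
  have hd1 : M.d = 1 := Nat.eq_one_of_mul_eq_one_left (by simpa using hd)
  cases M
  simp_all [SLN.one]

lemma size_mul (P M : SLN) (h : M ≠ SLN.one) : size P + 1 ≤ size (mul P M) := by
  have ha := P.a_pos
  have hd := P.d_pos
  have ha' := M.a_pos
  have hd' := M.d_pos
  have h1 : P.a + P.a * M.b + (P.b + P.b * M.c) + (P.c + P.c * M.b) + (P.d + P.d * M.c)
      ≤ size (mul P M) := by
    simp only [size, mul]
    have e1 : P.a ≤ P.a * M.a := Nat.le_mul_of_pos_right _ ha'
    have e2 : P.b ≤ P.b * M.d := Nat.le_mul_of_pos_right _ hd'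
    have e3 : P.c ≤ P.c * M.a := Nat.le_mul_of_pos_right _ ha'
    have e4 : P.d ≤ P.d * M.d := Nat.le_mul_of_pos_right _ hd'
    omega
  refine le_trans ?_ h1
  rcases ne_one_iff M h with hb | hc
  · have : 1 ≤ P.a * M.b := Nat.mul_pos ha hb
    simp only [size]
    omega
  · have : 1 ≤ P.d * M.c := Nat.mul_pos hd hc
    simp only [size]
    omega

lemma den_ne (P : SLN) (w : ℂ) (hw : 0 < w.re) : (P.c * w + P.d : ℂ) ≠ 0 := by
  intro h
  have h1 := congrArg Complex.re h
  simp at h1
  have h2 : (1 : ℝ) ≤ P.d := by exact_mod_cast P.d_pos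
  have h3 : (0 : ℝ) ≤ P.c * w.re := by positivity
  linarith

lemma act_re_im (P : SLN) (w : ℂ) (hx : 0 < w.re) (hy : 0 < w.im) :
    (P.d : ℝ) * (act P w).re - P.b > 0 ∧ 2 * (P.c * P.d) * (act P w).im ≤ 1 ∧
      0 < (act P w).re ∧ 0 < (act P w).im := by
  have hdet : (P.a * P.d : ℝ) = P.b * P.c + 1 := by exact_mod_cast P.det_eq
  have hd1 : (1 : ℝ) ≤ P.d := by exact_mod_cast P.d_pos
  have ha1 : (1 : ℝ) ≤ P.a := by exact_mod_cast P.a_pos
  have hb0 : (0 : ℝ) ≤ P.b := by positivity
  have hc0 : (0 : ℝ) ≤ P.c := by positivity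
  set x := w.re with hxdef
  set y := w.im with hydef
  set D : ℝ := (P.c * x + P.d) ^ 2 + (P.c * y) ^ 2 with hD
  have hDpos : 0 < D := by positivity
  have hns : Complex.normSq (P.c * w + P.d : ℂ) = D := by
    rw [Complex.normSq_apply]
    simp [hD]
    ring
  have hre : (act P w).re = (P.a * P.c * (x ^ 2 + y ^ 2) + (P.a * P.d + P.b * P.c) * x
      + P.b * P.d) / D := by
    unfold act
    rw [Complex.div_re, hns]
    simp
    field_simp
    ring
  have him : (act P w).im = y / D := by
    unfold act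
    rw [Complex.div_im, hns]
    simp
    rw [← hxdef, ← hydef]
    field_simp
    linear_combination hdet
  refine ⟨?_, ?_, ?_, ?_⟩
  · rw [hre]
    have : (P.d : ℝ) * ((P.a * P.c * (x ^ 2 + y ^ 2) + (P.a * P.d + P.b * P.c) * x
        + P.b * P.d) / D) - P.b = (P.c * (x ^ 2 + y ^ 2) + P.d * x) / D := by
      field_simp
      rw [hD]
      linear_combination (P.c * (x ^ 2 + y ^ 2) + P.d * x : ℝ) * hdet
    rw [this]
    positivity
  · rw [him, mul_div_assoc', div_le_one hDpos, hD]
    nlinarith [sq_nonneg (P.c * y - P.d : ℝ), mul_nonneg hc0 hx.le,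
      mul_nonneg (mul_nonneg hc0 hx.le) (le_trans zero_le_one hd1),
      sq_nonneg (P.c * x : ℝ)]
  · rw [hre]
    have : 0 < (P.a * P.d + P.b * P.c : ℝ) * x := by positivity
    positivity
  · rw [him]
    positivity

lemma act_mul (P M : SLN) (w : ℂ) (hx : 0 < w.re) (hy : 0 < w.im) :
    act (mul P M) w = act P (act M w) := by
  have h1 := den_ne M w hx
  have h2 := den_ne P (act M w) (act_re_im M w hx hy).2.2.1
  have h3 := den_ne (mul P M) w hx
  unfold act at *
  rw [div_eq_div_iff h3 h2]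
  simp only [mul] at h3 ⊢
  push_cast at h3 ⊢
  field_simp
  ring

/-- The size of `P` is bounded when `z` lies in `P(D_0)`. -/
noncomputable def bound (z : ℂ) : ℝ :=
  z.re + z.im⁻¹ + z.im⁻¹ * z.re + z.im⁻¹ * (z.im⁻¹ * z.re) + z.im⁻¹ + 4

lemma size_le (P : SLN) (w : ℂ) (hx : 0 < w.re) (hy : 0 < w.im) :
    (size P : ℝ) ≤ bound (act P w) := by
  obtain ⟨h1, h2, h3, h4⟩ := act_re_im P w hx hy
  set z := act P w
  set C := z.im⁻¹ with hC
  have hCpos : 0 < C := inv_pos.mpr h4
  have hd1 : (1 : ℝ) ≤ P.d := by exact_mod_cast P.d_pos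
  have hb0 : (0 : ℝ) ≤ P.b := by positivity
  have hcd : (P.c * P.d : ℝ) ≤ C := by
    rw [hC, inv_eq_one_div, le_div_iff₀ h4]
    have : (0 : ℝ) ≤ P.c * P.d * z.im := by positivity
    linarith
  have hdet : (P.a * P.d : ℝ) = P.b * P.c + 1 := by exact_mod_cast P.det_eq
  have ha0 : (0 : ℝ) ≤ P.a := by positivity
  have e1 : 0 ≤ C * z.re := by positivity
  have e2 : 0 ≤ C * (C * z.re) := by positivity
  have hbound : bound z = z.re + C + C * z.re + C * (C * z.re) + C + 4 := rfl
  have hsize : (size P : ℝ) = P.a + P.b + P.c + P.d := by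
    simp [size]
  rw [hbound, hsize]
  rcases Nat.eq_zero_or_pos P.c with hc | hc
  · have hc' : (P.c : ℝ) = 0 := by rw [hc]; simp
    have hdn : P.a * P.d = 1 := by
      have := P.det_eq
      rw [hc] at this
      simpa using this
    have ha1 : (P.a : ℝ) = 1 := by
      have : P.a = 1 := Nat.eq_one_of_mul_eq_one_right hdn
      rw [this]; simp
    have hd1' : (P.d : ℝ) = 1 := by
      have : P.d = 1 := Nat.eq_one_of_mul_eq_one_left hdn
      rw [this]; simp
    rw [ha1, hd1', hc']
    rw [hd1'] at h1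
    linarith
  · have hc1 : (1 : ℝ) ≤ P.c := by exact_mod_cast hc
    have c1 : (P.c : ℝ) ≤ C := by nlinarith
    have c2 : (P.d : ℝ) ≤ C := by nlinarith
    have c3 : (P.b : ℝ) ≤ C * z.re := by nlinarith
    have c4 : (P.a : ℝ) ≤ P.a * P.d := by nlinarith
    have c5 : (P.b * P.c : ℝ) ≤ C * (C * z.re) := by
      calc (P.b * P.c : ℝ) ≤ (C * z.re) * C := mul_le_mul c3 c1 (by positivity) e1
        _ = C * (C * z.re) := by ring
    linarith

/-! ### The theorem -/

lemma exists_matrix (K : Subfield ℂ) (L R : SLN) (hL : L ≠ SLN.one) (hR : R ≠ SLN.one)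
    (n : ℕ) (v z : D0 K) (h : Ancestor K L R n v z) :
    ∃ P : SLN, n ≤ size P ∧ (z : ℂ) = act P v := by
  induction h with
  | refl z =>
    refine ⟨SLN.one, Nat.zero_le _, ?_⟩
    simp [act, SLN.one]
  | @step n z w v _ he ih =>
    obtain ⟨P, hP, hz⟩ := ih
    have hv := v.2
    rcases he with he | he
    · refine ⟨mul P L, le_trans (Nat.succ_le_succ hP) (size_mul P L hL), ?_⟩
      rw [act_mul P L v hv.2.1 hv.2.2, ← he, hz]
    · refine ⟨mul P R, le_trans (Nat.succ_le_succ hP) (size_mul P R hR), ?_⟩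
      rw [act_mul P R v hv.2.1 hv.2.2, ← he, hz]

lemma ancestor_le (K : Subfield ℂ) (L R : SLN) (hL : L ≠ SLN.one) (hR : R ≠ SLN.one)
    (n : ℕ) (v z : D0 K) (h : Ancestor K L R n v z) : (n : ℝ) ≤ bound z := by
  obtain ⟨P, hP, hz⟩ := exists_matrix K L R hL hR n v z h
  have h1 := size_le P v v.2.2.1 v.2.2.2
  rw [← hz] at h1
  have h2 : (n : ℝ) ≤ size P := by exact_mod_cast hP
  linarith

lemma ancestor_same (K : Subfield ℂ) (L R : SLN) (n : ℕ) (v z : D0 K)
    (h : Ancestor K L R n v z) : SameComponent K L R z v := by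
  induction h with
  | refl z => exact Relation.EqvGen.refl z
  | step _ he ih =>
    exact Relation.EqvGen.trans _ _ _ ih (Relation.EqvGen.symm _ _ (Relation.EqvGen.rel _ _ he))

lemma exists_ancestor (K : Subfield ℂ) (L R : SLN) (z : D0 K)
    (h : ∀ w : D0 K, SameComponent K L R z w → ¬ IsOrphan K L R w) (n : ℕ) :
    ∃ v : D0 K, Ancestor K L R n v z := by
  induction n with
  | zero => exact ⟨z, Ancestor.refl z⟩
  | succ n ih =>
    obtain ⟨w, hw⟩ := ih
    have h1 := h w (ancestor_same K L R n w z hw)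
    unfold IsOrphan at h1
    push Not at h1
    obtain ⟨v, hv⟩ := h1
    exact ⟨v, Ancestor.step hw hv⟩

/-- For every subfield `K` of the complex numbers and every left-right pair `(L,R)`:
the action of both matrices maps `D_0` to itself; no vertex `z` has an ancestor of order larger
than the explicit number `bound z`; and the forest `F(L,R)` has no rootless component. -/
theorem result (K : Subfield ℂ) (L R : SLN) (h : IsLeftRightPair K L R) :
    (∀ z ∈ D0 K, act L z ∈ D0 K ∧ act R z ∈ D0 K) ∧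
    (∀ (n : ℕ) (v z : D0 K), Ancestor K L R n v z → (n : ℝ) ≤ bound z) ∧
    ¬ HasRootlessComponent K L R := by
  have mem : ∀ (T : SLN) (z : ℂ), z ∈ D0 K → act T z ∈ D0 K := by
    intro T z hz
    obtain ⟨hK, hx, hy⟩ := hz
    have h1 := act_re_im T z hx hy
    refine ⟨?_, h1.2.2.1, h1.2.2.2⟩
    unfold act
    exact K.div_mem (K.add_mem (K.mul_mem (natCast_mem K _) hK) (natCast_mem K _))
      (K.add_mem (K.mul_mem (natCast_mem K _) hK) (natCast_mem K _))
  refine ⟨fun z hz => ⟨mem L z hz, mem R z hz⟩, fun n v z hn =>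
    ancestor_le K L R h.1 h.2.1 n v z hn, ?_⟩
  rintro ⟨z, hz⟩
  obtain ⟨v, hv⟩ := exists_ancestor K L R z hz (⌊bound z⌋₊ + 1)
  have h1 := ancestor_le K L R h.1 h.2.1 _ v z hv
  have h2 := Nat.lt_floor_add_one (bound z)
  push_cast at h1
  linarith

end Pool.Agent.Results.MP_b00f03_nt.NoRootlessComponent
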